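import Pool.Agent.Helper20.FC.E5

/-!
# Enough injectives from a locally finite family of normable right ideals
-/

open Topology Filter

namespace Pool.Agent.Helper20.FA

universe u

attribute [local instance] IsFrechet.tag IsFrechet.csm IsFrechet.lcs

section

variable {A : Type u} [NonUnitalRing A] [Module ℂ A] [TopologicalSpace A]

/-- Closed submodules. -/
def subM (Y : FMod A) (N : Submodule ℂ Y.X) (hN : IsClosed (N : Set Y.X))
    (hst : ∀ (a : A), ∀ x ∈ N, Y.act a x ∈ N) : FMod A where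
  X := N
  fre := IsFrechet.sub N hN
  act := LinearMap.mk₂ ℂ (fun a x => ⟨Y.act a x.1, hst a x.1 x.2⟩)
    (by intro a b x; exact Subtype.ext (LinearMap.map_add₂ ..))
    (by intro r a x; exact Subtype.ext (LinearMap.map_smul₂ ..))
    (by intro a x y; exact Subtype.ext (map_add _ _ _))
    (by intro r a x; exact Subtype.ext (map_smul _ _ _))
  act_mul := by
    intro a b x
    exact Subtype.ext (Y.act_mul a b x.1)
  act_cont := by
    refine Continuous.subtype_mk ?_ _
    exact Y.act_cont.comp (by fun_prop : Continuous fun p : A × N => (p.1, p.2.1))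

end

variable {A : Type u} [NonUnitalRing A] [Module ℂ A] [IsScalarTower ℂ A A] [SMulCommClass ℂ A A]
  [TopologicalSpace A] [IsFrechet A] [ContinuousMul A]

/-- A locally finite family with normable pieces. -/
structure LFam (L : ℕ → Submodule ℂ (ℂ × A)) (w u c d : ℕ → ℂ × A) (N : ℕ → ℕ) : Prop where
  closed : ∀ m, IsClosed (L m : Set (ℂ × A))
  stab : ∀ m, ∀ z ∈ L m, ∀ a, mulP z a ∈ L m
  nrm : ∀ m, Normable (L m)
  mem : ∀ m, u m ∈ L m
  mem2 : ∀ m, d m ∈ L m
  small : Sml c
  sum : Tendsto (fun n => ∑ i ∈ Finset.range n, mulP (c i) (d i)) atTop (𝓝 (1, 0))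
  fin : ∀ m n, N m ≤ n → ∀ v ∈ L m, mulP (w n) v = 0
  recon : ∀ m, ∀ v ∈ L m, ∑ n ∈ Finset.range (N m), mulP (u n) (mulP (w n) v) = v

variable {L : ℕ → Submodule ℂ (ℂ × A)} {w u c d : ℕ → ℂ × A} {N : ℕ → ℕ}

/-- The right modules. -/
noncomputable def LFam.R (h : LFam L w u c d N) (m : ℕ) : RMod A :=
  subR (L m) (h.closed m) (h.stab m) (h.nrm m)

theorem LFam.mem' (h : LFam L w u c d N) (n : ℕ) (z : ℂ × A) : mulP (u n) z ∈ L n :=
  h.stab n _ (h.mem n) _

/-- The product. -/
noncomputable def LFam.bigM (h : LFam L w u c d N) (X : FMod A) : FMod A :=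
  piM (fun m => CofR (h.R m) X) (IsFrechet.pi (F := fun m => (CofR (h.R m) X).X))

/-- The consistent families. -/
noncomputable def LFam.con (h : LFam L w u c d N) (X : FMod A) :
    Submodule ℂ (∀ m, L m →L[ℂ] X.X) where
  carrier := {S | ∀ (m : ℕ) (v : L m), S m v =
    ∑ n ∈ Finset.range (N m), S n ⟨mulP (u n) (mulP (w n) v.1), h.mem' n _⟩}
  add_mem' := by
    intro S T hS hT m v
    show S m v + T m v = ∑ n ∈ Finset.range (N m),
      (S n ⟨mulP (u n) (mulP (w n) v.1), h.mem' n _⟩ +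
        T n ⟨mulP (u n) (mulP (w n) v.1), h.mem' n _⟩)
    rw [Finset.sum_add_distrib, ← hS, ← hT]
  zero_mem' := by
    intro m v
    show (0 : X.X) = ∑ n ∈ Finset.range (N m), (0 : X.X)
    rw [Finset.sum_const_zero]
  smul_mem' := by
    intro r S hS m v
    show r • S m v = ∑ n ∈ Finset.range (N m),
      r • S n ⟨mulP (u n) (mulP (w n) v.1), h.mem' n _⟩
    rw [← Finset.smul_sum, ← hS]

theorem LFam.mem_con {h : LFam L w u c d N} {X : FMod A} {S : ∀ m, L m →L[ℂ] X.X} :
    S ∈ h.con X ↔ ∀ (m : ℕ) (v : L m), S m v =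
      ∑ n ∈ Finset.range (N m), S n ⟨mulP (u n) (mulP (w n) v.1), h.mem' n _⟩ := Iff.rfl

theorem continuous_evm (X : FMod A) (m : ℕ) (v : L m) :
    Continuous fun S : ∀ m, L m →L[ℂ] X.X => S m v :=
  (continuous_eval_const v).comp (continuous_apply m)

theorem LFam.isClosed_con (h : LFam L w u c d N) (X : FMod A) :
    IsClosed (h.con X : Set (∀ m, L m →L[ℂ] X.X)) := by
  have := X.fre.metr
  have h1 : (h.con X : Set (∀ m, L m →L[ℂ] X.X)) = ⋂ (m : ℕ), ⋂ (v : L m),
      {S : ∀ m, L m →L[ℂ] X.X | S m v =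
        ∑ n ∈ Finset.range (N m), S n ⟨mulP (u n) (mulP (w n) v.1), h.mem' n _⟩} := by
    ext S
    simp only [Set.mem_iInter, Set.mem_setOf_eq]
    exact Iff.rfl
  rw [h1]
  refine isClosed_iInter fun m => isClosed_iInter fun v => ?_
  exact isClosed_eq (continuous_evm X m v)
    (continuous_finsetSum _ fun n _ => continuous_evm X n _)

theorem LFam.act_con (h : LFam L w u c d N) (X : FMod A) (a : A) (S : (h.bigM X).X)
    (hS : S ∈ (show Submodule ℂ (h.bigM X).X from h.con X)) :
    (h.bigM X).act a S ∈ (show Submodule ℂ (h.bigM X).X from h.con X) := by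
  have hS' : (show ∀ m, L m →L[ℂ] X.X from S) ∈ h.con X := hS
  rw [LFam.mem_con] at hS'
  show (show ∀ m, L m →L[ℂ] X.X from (h.bigM X).act a S) ∈ h.con X
  rw [LFam.mem_con]
  intro m v
  show (show ∀ m, L m →L[ℂ] X.X from S) m ⟨mulP v.1 (0, a), h.stab m _ v.2 _⟩ =
    ∑ n ∈ Finset.range (N m), (show ∀ m, L m →L[ℂ] X.X from S) n
      ⟨mulP (mulP (u n) (mulP (w n) v.1)) (0, a), h.stab n _ (h.mem' n _) _⟩
  rw [hS']
  refine Finset.sum_congr rfl fun n _ => ?_
  congr 1
  refine Subtype.ext ?_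
  show mulP (u n) (mulP (w n) (mulP v.1 (0, a))) = mulP (mulP (u n) (mulP (w n) v.1)) (0, a)
  rw [mulP_assoc, mulP_assoc]

/-- The injective module. -/
noncomputable def LFam.J (h : LFam L w u c d N) (X : FMod A) : FMod A :=
  subM (h.bigM X) (h.con X) (h.isClosed_con X) (h.act_con X)

/-- The components. -/
def LFam.cm (h : LFam L w u c d N) (X : FMod A) (j : (h.J X).X) : ∀ m, L m →L[ℂ] X.X :=
  (show h.con X from j).1

theorem LFam.cm_mem (h : LFam L w u c d N) (X : FMod A) (j : (h.J X).X) : h.cm X j ∈ h.con X :=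
  (show h.con X from j).2

theorem LFam.ext (h : LFam L w u c d N) (X : FMod A) {j k : (h.J X).X}
    (hjk : h.cm X j = h.cm X k) : j = k :=
  Subtype.ext (a1 := (show h.con X from j)) (a2 := (show h.con X from k)) hjk

theorem LFam.cm_act (h : LFam L w u c d N) (X : FMod A) (a : A) (j : (h.J X).X) (m : ℕ)
    (v : L m) : h.cm X ((h.J X).act a j) m v =
      h.cm X j m ⟨mulP v.1 (0, a), h.stab m _ v.2 _⟩ := rfl

theorem LFam.cm_actP (h : LFam L w u c d N) (X : FMod A) (z : ℂ × A) (j : (h.J X).X) (m : ℕ)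
    (v : L m) : h.cm X ((h.J X).actP z j) m v =
      h.cm X j m ⟨mulP v.1 z, h.stab m _ v.2 _⟩ := by
  have h1 : h.cm X ((h.J X).actP z j) m v =
      z.1 • h.cm X j m v + h.cm X j m ⟨mulP v.1 (0, z.2), h.stab m _ v.2 _⟩ := rfl
  rw [h1, ← map_smul, ← map_add]
  congr 1
  refine Subtype.ext ?_
  show z.1 • v.1 + mulP v.1 (0, z.2) = mulP v.1 z
  rw [mulP_def, mulP_def]
  refine Prod.ext ?_ ?_
  · simp [mul_comm]
  · simp
    abel

/-- The component map. -/
noncomputable def LFam.cmL (h : LFam L w u c d N) (X : FMod A) (n : ℕ) (z : L n) :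
    (h.J X).X →L[ℂ] X.X where
  toFun j := h.cm X j n z
  map_add' _ _ := rfl
  map_smul' _ _ := rfl
  cont := (continuous_evm X n _).comp
    (continuous_subtype_val : Continuous fun j : h.con X => j.1)

section

variable (h : LFam L w u c d N) (X : FMod A) {Y : FMod A} (θ : ℕ → (Y.X →L[ℂ] X.X))

/-- The components of the retraction. -/
noncomputable def Psi (L : ℕ → Submodule ℂ (ℂ × A)) (w : ℕ → ℂ × A) (N : ℕ → ℕ) (X : FMod A)
    {Y : FMod A} (θ : ℕ → (Y.X →L[ℂ] X.X)) (m : ℕ) : Y.X →L[ℂ] (L m →L[ℂ] X.X) :=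
  (ContinuousLinearMap.postcomp (L m)
    (∑ n ∈ Finset.range (N m), (θ n).comp (Y.actL (w n)))).comp (etaS (L m) Y)

theorem Psi_apply (m : ℕ) (y : Y.X) (v : L m) :
    Psi L w N X θ m y v =
      ∑ n ∈ Finset.range (N m), θ n (Y.actP (w n) (Y.actP v.1 y)) := by
  show (∑ n ∈ Finset.range (N m), (θ n).comp (Y.actL (w n))) (Y.actP v.1 y) = _
  rw [ContinuousLinearMap.sum_apply]
  rfl

include h in
theorem LFam.Psi_range (m K : ℕ) (hK : N m ≤ K) (y : Y.X) (v : L m) :
    Psi L w N X θ m y v =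
      ∑ n ∈ Finset.range K, θ n (Y.actP (w n) (Y.actP v.1 y)) := by
  rw [Psi_apply]
  refine Finset.sum_subset (Finset.range_mono hK) fun n _ hn => ?_
  rw [Finset.mem_range, not_lt] at hn
  rw [← Y.actP_mulP, h.fin m n hn v.1 v.2]
  have h1 : Y.actP 0 y = 0 := by
    rw [Y.actP_def]
    simp
  rw [h1, map_zero]

theorem LFam.Psi_mem (y : Y.X) : (fun m => Psi L w N X θ m y) ∈ h.con X := by
  rw [LFam.mem_con]
  intro m v
  set K : ℕ := N m + ∑ n ∈ Finset.range (N m), N n with hK
  have h1 : ∀ n ∈ Finset.range (N m), N n ≤ K := by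
    intro n hn
    have h2 : N n ≤ ∑ n ∈ Finset.range (N m), N n :=
      Finset.single_le_sum (f := N) (fun _ _ => Nat.zero_le _) hn
    omega
  rw [h.Psi_range X θ m K (by omega) y v]
  have h2 : ∀ n ∈ Finset.range (N m),
      Psi L w N X θ n y ⟨mulP (u n) (mulP (w n) v.1), h.mem' n _⟩ =
      ∑ k ∈ Finset.range K,
        θ k (Y.actP (w k) (Y.actP (mulP (u n) (mulP (w n) v.1)) y)) := by
    intro n hn
    exact h.Psi_range X θ n K (h1 n hn) y _
  rw [Finset.sum_congr rfl h2, Finset.sum_comm]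
  refine Finset.sum_congr rfl fun k _ => ?_
  let G : (ℂ × A) →+ X.X :=
    { toFun := fun z => θ k (Y.actP (w k) (Y.actP z y))
      map_zero' := by
        have h3 : Y.actP 0 y = 0 := by
          rw [Y.actP_def]
          simp
        rw [h3, Y.actP_zero, map_zero]
      map_add' := by
        intro z z'
        rw [Y.add_actP, Y.actP_add, map_add] }
  show G v.1 = ∑ n ∈ Finset.range (N m), G (mulP (u n) (mulP (w n) v.1))
  rw [← map_sum, h.recon m v.1 v.2]

/-- The retraction. -/
noncomputable def LFam.ret : Y.X →L[ℂ] (h.J X).X :=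
  (ContinuousLinearMap.pi fun m => Psi L w N X θ m).codRestrict (h.con X)
    (h.Psi_mem X θ)

theorem LFam.cm_ret (y : Y.X) (m : ℕ) : h.cm X (h.ret X θ y) m = Psi L w N X θ m y := rfl

end

/-- The modules are injective. -/
theorem LFam.injective (h : LFam L w u c d N) (X : FMod A) : Injective (h.J X) := by
  intro Y φ hφ ⟨ψ0, hψ0⟩
  let θ : ℕ → (Y.X →L[ℂ] X.X) := fun n => (h.cmL X n ⟨u n, h.mem n⟩).comp ψ0
  have hφP : ∀ (z : ℂ × A) (j : (h.J X).X), φ ((h.J X).actP z j) = Y.actP z (φ j) := by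
    intro z j
    rw [FMod.actP_def, FMod.actP_def, map_add, map_smul, hφ]
  refine ⟨h.ret X θ, fun a y => h.ext X ?_, fun j => h.ext X ?_⟩
  · funext m
    refine ContinuousLinearMap.ext fun v => ?_
    rw [h.cm_act, h.cm_ret, h.cm_ret, Psi_apply, Psi_apply]
    refine Finset.sum_congr rfl fun n _ => ?_
    show θ n (Y.actP (w n) (Y.actP v.1 (Y.act a y))) =
      θ n (Y.actP (w n) (Y.actP (mulP v.1 (0, a)) y))
    rw [Y.actP_mulP v.1, ← act_eq_actP]
  · funext m
    refine ContinuousLinearMap.ext fun v => ?_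
    rw [h.cm_ret, Psi_apply, LFam.mem_con.1 (h.cm_mem X j) m v]
    refine Finset.sum_congr rfl fun n _ => ?_
    rw [← hφP, ← hφP]
    show h.cm X (ψ0 (φ ((h.J X).actP (w n) ((h.J X).actP v.1 j)))) n ⟨u n, h.mem n⟩ = _
    rw [hψ0, h.cm_actP, h.cm_actP]
    congr 1
    refine Subtype.ext ?_
    show mulP (mulP (u n) (w n)) v.1 = mulP (u n) (mulP (w n) v.1)
    rw [mulP_assoc]

theorem LFam.eta_mem (h : LFam L w u c d N) (X : FMod A) (x : X.X) :
    (fun m => etaS (L m) X x) ∈ h.con X := by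
  rw [LFam.mem_con]
  intro m v
  let G : (ℂ × A) →+ X.X :=
    { toFun := fun z => X.actP z x
      map_zero' := by
        rw [X.actP_def]
        simp
      map_add' := fun z z' => X.add_actP z z' x }
  show G v.1 = ∑ n ∈ Finset.range (N m), G (mulP (u n) (mulP (w n) v.1))
  rw [← map_sum, h.recon m v.1 v.2]

/-- Enough injectives. -/
theorem LFam.hasInjectiveCoresolution (h : LFam L w u c d N) (X : FMod A) :
    HasInjectiveCoresolution X := by
  refine hasInj_of_emb (fun X => ⟨?_⟩) X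
  refine
    { J := h.J X
      inj := h.injective X
      e := (ContinuousLinearMap.pi fun m => etaS (L m) X).codRestrict (h.con X) (h.eta_mem X)
      s := (h.small.sumL X).comp (ContinuousLinearMap.pi fun n => h.cmL X n ⟨d n, h.mem2 n⟩)
      hom := ?_
      left := ?_ }
  · intro a x
    refine h.ext X ?_
    funext m
    refine ContinuousLinearMap.ext fun z => ?_
    show X.actP z.1 (X.act a x) = X.actP (mulP z.1 (0, a)) x
    rw [X.actP_mulP, ← act_eq_actP]
  · intro x
    show ∑' i, X.actP (c i) (X.actP (d i) x) = x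
    have := X.fre.metr
    have h1 := (h.small.summable X fun i => X.actP (d i) x).hasSum.tendsto_sum_nat
    have h2 : Tendsto (fun n => ∑ i ∈ Finset.range n, X.actP (c i) (X.actP (d i) x)) atTop
        (𝓝 (X.actP (1, 0) x)) := by
      have h3 : ∀ n, ∑ i ∈ Finset.range n, X.actP (c i) (X.actP (d i) x) =
          X.actP (∑ i ∈ Finset.range n, mulP (c i) (d i)) x := by
        intro n
        induction n with
        | zero =>
          rw [Finset.sum_range_zero, Finset.sum_range_zero, X.actP_def]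
          simp
        | succ n ih =>
          rw [Finset.sum_range_succ, Finset.sum_range_succ, X.add_actP, ih, X.actP_mulP]
      simp_rw [h3]
      have h4 : Continuous fun z : ℂ × A => X.actP z x :=
        X.continuous_actP.comp (by fun_prop : Continuous fun z : ℂ × A => (z, x))
      exact (h4.tendsto _).comp h.sum
    rw [X.one_actP] at h2
    exact tendsto_nhds_unique h1 h2

end Pool.Agent.Helper20.FA
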