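import Pool.Agent.Helper20.FJ.N1

/-!
# Sequences of elements with normable right ideals
-/

open Topology Filter

namespace Pool.Agent.Helper20.FA

universe u v

attribute [local instance] IsFrechet.tag IsFrechet.csm IsFrechet.lcs

section

variable {E : Type v} [AddCommGroup E]

/-- The differences of a sequence. -/
def dif (c : ℕ → E) : ℕ → E
  | 0 => c 0
  | n + 1 => c (n + 1) - c n

theorem sum_dif (c : ℕ → E) (n : ℕ) : ∑ i ∈ Finset.range (n + 1), dif c i = c n := by
  induction n with
  | zero =>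
    rw [zero_add, Finset.sum_range_one]
    rfl
  | succ n ih =>
    rw [Finset.sum_range_succ, ih]
    show c n + (c (n + 1) - c n) = c (n + 1)
    abel

end

variable {A : Type u} [NonUnitalRing A] [Module ℂ A] [IsScalarTower ℂ A A] [SMulCommClass ℂ A A]
  [TopologicalSpace A]

/-- The right ideal `a A_+`. -/
def rIdeal (a : ℂ × A) : Submodule ℂ (ℂ × A) := LinearMap.range (mulPL a)

/-- The elements `a n` of `A_+` satisfy `a (n + 1) a n = a n`, each neighbourhood of zero contains
all but finitely many of the right ideals `(1 - a n) A_+`, and the right ideals `a n A_+` are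
normable. -/
structure LUnit (a : ℕ → ℂ × A) : Prop where
  mul : ∀ n, mulP (a (n + 1)) (a n) = a n
  small : ∀ U ∈ 𝓝 (0 : ℂ × A), ∃ n : ℕ, ∀ i, n ≤ i → ∀ z, mulP ((1, 0) - a i) z ∈ U
  nrm : ∀ n, Normable (rIdeal (a n))

variable [IsFrechet A] [ContinuousMul A] {a : ℕ → ℂ × A}

theorem normable_fixP' {f : ℂ × A} (h : Normable (rIdeal f)) : Normable (fixP f) := by
  obtain ⟨p, hp⟩ := h
  have hpc : Continuous p := hp.continuous_seminorm ()
  have hle : fixP f ≤ rIdeal f := fun z hz => ⟨z, hz⟩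
  let ι : fixP f →ₗ[ℂ] rIdeal f := Submodule.inclusion hle
  have hι : Continuous ι := continuous_subtype_val.subtype_mk _
  refine normable_of_bound (p := p.comp ι) (hpc.comp hι) fun O hO => ?_
  rw [nhds_subtype_eq_comap] at hO
  obtain ⟨O', hO', hOO⟩ := hO
  have hO'' : ((Subtype.val : rIdeal f → ℂ × A) ⁻¹' O') ∈ 𝓝 (0 : rIdeal f) :=
    continuous_subtype_val.continuousAt.preimage_mem_nhds hO'
  obtain ⟨s, r, hr, hs⟩ := (hp.mem_nhds_iff 0 _).1 hO''
  refine ⟨r, hr, fun x hx => hOO (hs ?_ : ι x ∈ _)⟩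
  rw [Seminorm.mem_ball_zero]
  have h1 : s.sup (fun _ => p) ≤ p := Finset.sup_le fun _ _ => le_rfl
  exact (h1 (ι x)).trans_lt hx

theorem mulP_sub' (x y z : ℂ × A) : mulP x (y - z) = mulP x y - mulP x z := by
  rw [← mulPL_apply, map_sub, mulPL_apply, mulPL_apply]

theorem sub_mulP' (x y z : ℂ × A) : mulP (x - y) z = mulP x z - mulP y z := by
  rw [← mulPL_apply, map_sub, LinearMap.sub_apply, mulPL_apply, mulPL_apply]

theorem mul_of_lt (h : ∀ n, mulP (a (n + 1)) (a n) = a n) {i j : ℕ} (hij : i < j) :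
    mulP (a j) (a i) = a i := by
  obtain ⟨d, rfl⟩ : ∃ d, j = i + 1 + d := ⟨j - (i + 1), by omega⟩
  induction d with
  | zero => exact h i
  | succ d ih =>
    have h1 := ih (by omega)
    have h2 := h (i + 1 + d)
    show mulP (a (i + 1 + d + 1)) (a i) = a i
    calc mulP (a (i + 1 + d + 1)) (a i)
        = mulP (a (i + 1 + d + 1)) (mulP (a (i + 1 + d)) (a i)) := by rw [h1]
      _ = mulP (mulP (a (i + 1 + d + 1)) (a (i + 1 + d))) (a i) := by rw [mulP_assoc]
      _ = mulP (a (i + 1 + d)) (a i) := by rw [h2]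
      _ = a i := h1

theorem dif_mul {c : ℕ → ℂ × A} (hc : ∀ i j, i < j → mulP (c j) (c i) = c i) (n : ℕ) :
    mulP (c (n + 1)) (dif c n) = dif c n := by
  cases n with
  | zero => exact hc 0 1 (by omega)
  | succ n =>
    show mulP (c (n + 1 + 1)) (c (n + 1) - c n) = c (n + 1) - c n
    rw [mulP_sub', hc _ _ (by omega), hc _ _ (by omega)]

theorem fix_mul {c : ℕ → ℂ × A} (hc : ∀ i j, i < j → mulP (c j) (c i) = c i) {m j : ℕ}
    (hj : m < j) {v : ℂ × A} (hv : v ∈ fixP (c m)) : mulP (c j) v = v := by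
  rw [mem_fixP] at hv
  calc mulP (c j) v = mulP (c j) (mulP (c m) v) := by rw [hv]
    _ = mulP (mulP (c j) (c m)) v := by rw [mulP_assoc]
    _ = v := by rw [hc _ _ hj, hv]

theorem LUnit.exists_lfam (h : LUnit a) : ∃ (L : ℕ → Submodule ℂ (ℂ × A))
    (w u c d : ℕ → ℂ × A) (N : ℕ → ℕ), LFam L w u c d N := by
  have hF : IsFrechet (ℂ × A) := IsFrechet.prod
  have := hF.metr
  obtain ⟨V, hV⟩ := (𝓝 (0 : ℂ × A)).exists_antitone_basis
  have hVn : ∀ n, V n ∈ 𝓝 (0 : ℂ × A) := fun n => hV.toHasBasis.mem_of_mem trivial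
  have step : ∀ (n k : ℕ) (W : ℂ × A), ∃ k' : ℕ, k < k' ∧
      ∀ z, mulP (mulP W ((1, 0) - a k')) z ∈ V n := by
    intro n k W
    have h1 : {x : ℂ × A | mulP W x ∈ V n} ∈ 𝓝 (0 : ℂ × A) := by
      have h2 : ContinuousAt (fun x : ℂ × A => mulP W x) 0 := (lmul W).continuous.continuousAt
      refine h2.preimage_mem_nhds ?_
      have h3 : mulP W 0 = 0 := by
        rw [← mulPL_apply, map_zero]
      show V n ∈ 𝓝 (mulP W 0)
      rw [h3]
      exact hVn n
    obtain ⟨m, hm⟩ := h.small _ h1
    refine ⟨max (k + 1) m, by omega, fun z => ?_⟩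
    rw [mulP_assoc]
    exact hm _ (le_max_right _ _) z
  choose K hK1 hK2 using step
  let s : ℕ → ℕ × (ℂ × A) := fun n => Nat.rec (0, (1, 0))
    (fun n p => (K n p.1 p.2, mulP p.2 ((1, 0) - a (K n p.1 p.2)))) n
  let k : ℕ → ℕ := fun n => (s (n + 1)).1
  let W : ℕ → ℂ × A := fun n => (s n).2
  have hW0 : W 0 = (1, 0) := rfl
  have hWs : ∀ n, W (n + 1) = mulP (W n) ((1, 0) - a (k n)) := fun n => rfl
  have hWV : ∀ n z, mulP (W (n + 1)) z ∈ V n := fun n z => hK2 n _ _ z
  have hk : StrictMono k := strictMono_nat_of_lt_succ fun n => hK1 (n + 1) _ _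
  let c : ℕ → ℂ × A := fun n => a (k n)
  have hc : ∀ i j, i < j → mulP (c j) (c i) = c i := fun i j hij => mul_of_lt h.mul (hk hij)
  have hsum : ∀ n, ∑ i ∈ Finset.range n, mulP (W i) (c i) = (1, 0) - W n := by
    intro n
    induction n with
    | zero => rw [Finset.sum_range_zero, hW0, sub_self]
    | succ n ih =>
      rw [Finset.sum_range_succ, ih, hWs, mulP_sub', mulP_one]
      show (1, 0) - W n + mulP (W n) (a (k n)) = (1, 0) - (W n - mulP (W n) (a (k n)))
      abel
  refine ⟨fun m => fixP (c (m + 2)), dif c, fun n => c (n + 1), W, c, fun m => m + 4, ?_⟩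
  exact
    { closed := fun m => isClosed_fixP _
      stab := fun m z hz a => mulP_mem_fixP hz a
      nrm := fun m => normable_fixP' (h.nrm _)
      mem := fun m => mem_fixP.2 (hc _ _ (by omega))
      mem2 := fun m => mem_fixP.2 (hc _ _ (by omega))
      small := by
        intro U hU
        obtain ⟨n, -, hn⟩ := hV.toHasBasis.mem_iff.1 hU
        refine ⟨n + 1, fun i hi z => hn ?_⟩
        obtain ⟨j, rfl⟩ : ∃ j, i = j + 1 := ⟨i - 1, by omega⟩
        exact hV.antitone (by omega : n ≤ j) (hWV j z)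
      sum := by
        have h1 : Tendsto W atTop (𝓝 0) := by
          rw [← tendsto_add_atTop_iff_nat 1]
          rw [hV.toHasBasis.tendsto_right_iff]
          intro n _
          filter_upwards [eventually_ge_atTop n] with j hj
          have h2 := hWV j (1, 0)
          rw [mulP_one] at h2
          exact hV.antitone hj h2
        have h2 : Tendsto (fun n => (1, 0) - W n) atTop (𝓝 (((1 : ℂ), (0 : A)) - 0)) :=
          tendsto_const_nhds.sub h1
        rw [sub_zero] at h2
        simp_rw [hsum]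
        exact h2
      fin := by
        intro m n hn v hv
        obtain ⟨j, rfl⟩ : ∃ j, n = j + 1 := ⟨n - 1, by omega⟩
        show mulP (c (j + 1) - c j) v = 0
        rw [sub_mulP', fix_mul hc (by omega : m + 2 < j + 1) hv,
          fix_mul hc (by omega : m + 2 < j) hv, sub_self]
      recon := by
        intro m v hv
        have h1 : ∀ n ∈ Finset.range (m + 4), mulP (c (n + 1)) (mulP (dif c n) v) =
            mulP (dif c n) v := by
          intro n _
          rw [← mulP_assoc, dif_mul hc]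
        rw [Finset.sum_congr rfl h1]
        have h2 : ∑ n ∈ Finset.range (m + 4), mulP (dif c n) v =
            mulP (∑ n ∈ Finset.range (m + 4), dif c n) v := by
          rw [← mulPL_apply, map_sum, LinearMap.sum_apply]
          rfl
        rw [h2, sum_dif, fix_mul hc (by omega : m + 2 < m + 3) hv] }

/-- Enough injectives. -/
theorem LUnit.hasCores (h : LUnit a) (M : FMod A) : HasCores M := by
  obtain ⟨L, w, u, c, d, N, hL⟩ := h.exists_lfam
  exact (hasCores_iff M).2 (hL.hasInjectiveCoresolution M)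

end Pool.Agent.Helper20.FA
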